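import Pool.Agent.Helper97.CG.Stmts

/-!
# Row GENA: symplectic isometries are products of transvections
-/

namespace Pool.Agent.Helper97.CG

open MvPolynomial Matrix Pool.Agent.Helper14.RG

universe u

namespace GenA

variable {k : Type u} [Field k] {n : Type} [Fintype n] [DecidableEq n]

/-- the bilinear form -/
def B (J : Matrix n n k) (u v : n → k) : k := u ⬝ᵥ (J *ᵥ v)

/-- transvection -/
def tv (J : Matrix n n k) (z : n → k) (c : k) : Matrix n n k := 1 + c • vecMulVec z (J *ᵥ z)

omit [DecidableEq n] in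
lemma B_add_left (J : Matrix n n k) (u v w : n → k) : B J (u + v) w = B J u w + B J v w := by
  simp [B, add_dotProduct]
omit [DecidableEq n] in
lemma B_add_right (J : Matrix n n k) (u v w : n → k) : B J u (v + w) = B J u v + B J u w := by
  simp [B, mulVec_add, dotProduct_add]
omit [DecidableEq n] in
lemma B_smul_left (J : Matrix n n k) (c : k) (u w : n → k) : B J (c • u) w = c * B J u w := by
  simp [B, smul_dotProduct]
omit [DecidableEq n] in
lemma B_smul_right (J : Matrix n n k) (c : k) (u w : n → k) : B J u (c • w) = c * B J u w := by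
  simp [B, mulVec_smul, dotProduct_smul]
omit [DecidableEq n] in
lemma B_sub_left (J : Matrix n n k) (u v w : n → k) : B J (u - v) w = B J u w - B J v w := by
  simp [B, sub_dotProduct]
omit [DecidableEq n] in
lemma B_sub_right (J : Matrix n n k) (u v w : n → k) : B J u (v - w) = B J u v - B J u w := by
  simp [B, mulVec_sub, dotProduct_sub]
omit [DecidableEq n] in
lemma B_zero_left (J : Matrix n n k) (u : n → k) : B J 0 u = 0 := by simp [B]
omit [DecidableEq n] in
lemma B_zero_right (J : Matrix n n k) (u : n → k) : B J u 0 = 0 := by simp [B]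

omit [DecidableEq n] in
lemma B_swap {J : Matrix n n k} (hJ : Jᵀ = -J) (u v : n → k) : B J v u = -B J u v := by
  unfold B
  rw [dotProduct_mulVec, ← mulVec_transpose, hJ, neg_mulVec, neg_dotProduct, dotProduct_comm]

lemma B_self [CharZero k] {J : Matrix n n k} (hJ : Jᵀ = -J) (u : n → k) : B J u u = 0 := by
  have h := B_swap hJ u u
  have h2 : (2 : k) * B J u u = 0 := by linear_combination h
  rcases mul_eq_zero.1 h2 with h3 | h3
  · exact absurd h3 two_ne_zero
  · exact h3

lemma tv_mulVec (J : Matrix n n k) (z : n → k) (c : k) (u : n → k) :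
    tv J z c *ᵥ u = u + (c * B J u z) • z := by
  unfold tv B
  rw [add_mulVec, one_mulVec, smul_mulVec, vecMulVec_mulVec]
  congr 1
  funext i
  simp [dotProduct_comm, mul_comm, mul_left_comm]

/-- the transvection group -/
def GT (J : Matrix n n k) : Submonoid (Matrix n n k) :=
  Submonoid.closure {R : Matrix n n k | ∃ (v : n → k) (c : k), R = 1 + c • vecMulVec v (J *ᵥ v)}

lemma tv_mem (J : Matrix n n k) (z : n → k) (c : k) : tv J z c ∈ GT J :=
  Submonoid.subset_closure ⟨z, c, rfl⟩

lemma ext_mulVec {x y : Matrix n n k} (h : ∀ u, x *ᵥ u = y *ᵥ u) : x = y :=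
  Matrix.ext_of_mulVec_single fun _ => h _

lemma tv_inv [CharZero k] {J : Matrix n n k} (hJ : Jᵀ = -J) (z : n → k) (c : k) :
    tv J z (-c) * tv J z c = 1 := by
  apply ext_mulVec
  intro u
  rw [← mulVec_mulVec, tv_mulVec, tv_mulVec, one_mulVec, B_add_left, B_smul_left, B_self hJ]
  rw [mul_zero, add_zero, add_assoc, ← add_smul]
  have : c * B J u z + -c * B J u z = 0 := by ring
  rw [this, zero_smul, add_zero]

lemma tv_iso [CharZero k] {J : Matrix n n k} (hJ : Jᵀ = -J) (z : n → k) (c : k) (u v : n → k) :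
    B J (tv J z c *ᵥ u) (tv J z c *ᵥ v) = B J u v := by
  rw [tv_mulVec, tv_mulVec, B_add_left, B_add_right, B_add_right, B_smul_left, B_smul_left,
    B_smul_right, B_smul_right, B_self hJ, B_swap hJ v z]
  ring

/-- admissible elements -/
structure Good (J : Matrix n n k) (U : Submodule k (n → k)) (v : n → k) (τ : Matrix n n k) :
    Prop where
  inv : ∃ τ' ∈ GT J, τ' * τ = 1
  iso : ∀ a b, B J (τ *ᵥ a) (τ *ᵥ b) = B J a b
  pres : ∀ a ∈ U, τ *ᵥ a ∈ U
  fix : ∀ w, (∀ a ∈ U, B J a w = 0) → τ *ᵥ w = w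
  fixv : τ *ᵥ v = v

lemma Good.mul {J : Matrix n n k} {U : Submodule k (n → k)} {v : n → k} {σ τ : Matrix n n k}
    (hσ : Good J U v σ) (hτ : Good J U v τ) : Good J U v (σ * τ) where
  inv := by
    obtain ⟨σ', h1, h2⟩ := hσ.inv
    obtain ⟨τ', h3, h4⟩ := hτ.inv
    refine ⟨τ' * σ', Submonoid.mul_mem _ h3 h1, ?_⟩
    rw [Matrix.mul_assoc, ← Matrix.mul_assoc σ', h2, Matrix.one_mul, h4]
  iso a b := by rw [← mulVec_mulVec, ← mulVec_mulVec, hσ.iso, hτ.iso]
  pres a ha := by rw [← mulVec_mulVec]; exact hσ.pres _ (hτ.pres _ ha)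
  fix w hw := by rw [← mulVec_mulVec, hτ.fix w hw, hσ.fix w hw]
  fixv := by rw [← mulVec_mulVec, hτ.fixv, hσ.fixv]

lemma good_tv [CharZero k] {J : Matrix n n k} (hJ : Jᵀ = -J) {U : Submodule k (n → k)}
    {v z : n → k} (hz : z ∈ U) (hv : B J v z = 0) (c : k) : Good J U v (tv J z c) where
  inv := ⟨tv J z (-c), tv_mem _ _ _, tv_inv hJ z c⟩
  iso := tv_iso hJ z c
  pres a ha := by
    rw [tv_mulVec]
    exact U.add_mem ha (U.smul_mem _ hz)
  fix w hw := by
    rw [tv_mulVec, B_swap hJ z w, hw z hz]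
    simp
  fixv := by rw [tv_mulVec, hv]; simp

lemma good_move [CharZero k] {J : Matrix n n k} (hJ : Jᵀ = -J) {U : Submodule k (n → k)}
    {v a b : n → k} (ha : a ∈ U) (hb : b ∈ U) (hv : B J v (a - b) = 0) (hab : B J a b ≠ 0) :
    ∃ τ, Good J U v τ ∧ τ *ᵥ a = b := by
  refine ⟨tv J (a - b) (B J a b)⁻¹, good_tv hJ (U.sub_mem ha hb) hv _, ?_⟩
  rw [tv_mulVec, B_sub_right, B_self hJ, zero_sub, mul_neg, inv_mul_cancel₀ hab]
  simp

/-- non-degenerate subspace -/
def ND (J : Matrix n n k) (U : Submodule k (n → k)) : Prop :=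
  ∀ a ∈ U, (∀ b ∈ U, B J a b = 0) → a = 0

lemma good_trans [CharZero k] {J : Matrix n n k} (hJ : Jᵀ = -J) {U : Submodule k (n → k)}
    (hU : ND J U) {a b : n → k} (ha : a ∈ U) (hb : b ∈ U) (ha0 : a ≠ 0) (hb0 : b ≠ 0) :
    ∃ τ, Good J U 0 τ ∧ τ *ᵥ a = b := by
  have key : ∃ c ∈ U, B J a c ≠ 0 ∧ B J b c ≠ 0 := by
    have h1 : ∃ c ∈ U, B J a c ≠ 0 := by
      by_contra hcon
      push Not at hcon
      exact ha0 (hU a ha hcon)
    have h2 : ∃ c ∈ U, B J b c ≠ 0 := by
      by_contra hcon
      push Not at hcon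
      exact hb0 (hU b hb hcon)
    obtain ⟨c1, hc1, h1⟩ := h1
    obtain ⟨c2, hc2, h2⟩ := h2
    by_cases h3 : B J b c1 = 0
    · by_cases h4 : B J a c2 = 0
      · refine ⟨c1 + c2, U.add_mem hc1 hc2, ?_, ?_⟩
        · rw [B_add_right, h4, add_zero]; exact h1
        · rw [B_add_right, h3, zero_add]; exact h2
      · exact ⟨c2, hc2, h4, h2⟩
    · exact ⟨c1, hc1, h1, h3⟩
  obtain ⟨c, hc, h1, h2⟩ := key
  obtain ⟨τ1, g1, e1⟩ := good_move hJ (v := 0) ha hc (B_zero_left _ _) h1
  have h3 : B J c b ≠ 0 := by rw [B_swap hJ b c]; exact neg_ne_zero.2 h2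
  obtain ⟨τ2, g2, e2⟩ := good_move hJ (v := 0) hc hb (B_zero_left _ _) h3
  exact ⟨τ2 * τ1, g2.mul g1, by rw [← mulVec_mulVec, e1, e2]⟩

/-- decomposition along a hyperbolic pair -/
lemma decomp [CharZero k] {J : Matrix n n k} (hJ : Jᵀ = -J) {v v' : n → k} (h : B J v v' = 1)
    (w : n → k) : B J v (w - (B J w v' • v - B J w v • v')) = 0 ∧
      B J v' (w - (B J w v' • v - B J w v • v')) = 0 := by
  have h' : B J v' v = -1 := by rw [B_swap hJ v v', h]
  constructor
  · rw [B_sub_right, B_sub_right, B_smul_right, B_smul_right, B_self hJ, h, B_swap hJ w v]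
    ring
  · rw [B_sub_right, B_sub_right, B_smul_right, B_smul_right, B_self hJ, h', B_swap hJ w v']
    ring

theorem main [CharZero k] {J : Matrix n n k} (hJ : Jᵀ = -J) :
    ∀ m : ℕ, ∀ U : Submodule k (n → k), Module.finrank k U = m → ND J U → ∀ x : Matrix n n k,
    (∀ a b, B J (x *ᵥ a) (x *ᵥ b) = B J a b) → (∀ a ∈ U, x *ᵥ a ∈ U) →
    (∀ w, (∀ a ∈ U, B J a w = 0) → x *ᵥ w = w) → x ∈ GT J := by
  intro m
  induction m using Nat.strong_induction_on with
  | _ m ih =>
    intro U hm hU x hx hpres hfix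
    by_cases hU0 : U = ⊥
    · have : x = 1 := by
        apply ext_mulVec
        intro u
        rw [one_mulVec]
        apply hfix
        intro a ha
        rw [hU0, Submodule.mem_bot] at ha
        rw [ha, B_zero_left]
      rw [this]
      exact Submonoid.one_mem _
    · obtain ⟨v, hv, hv0⟩ := Submodule.exists_mem_ne_zero_of_ne_bot hU0
      have h1 : ∃ c ∈ U, B J v c ≠ 0 := by
        by_contra hcon
        push Not at hcon
        exact hv0 (hU v hv hcon)
      obtain ⟨c, hc, hvc⟩ := h1
      obtain ⟨v', hv', hvv⟩ : ∃ v' ∈ U, B J v v' = 1 :=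
        ⟨(B J v c)⁻¹ • c, U.smul_mem _ hc, by rw [B_smul_right, inv_mul_cancel₀ hvc]⟩
      -- first step
      have hxv0 : x *ᵥ v ≠ 0 := by
        intro h0
        have := hx v v'
        rw [h0, B_zero_left, hvv] at this
        exact zero_ne_one this
      obtain ⟨τ1, g1, e1⟩ := good_trans hJ hU (hpres v hv) hv hxv0 hv0
      -- second step
      have hy1 : ∀ a b, B J ((τ1 * x) *ᵥ a) ((τ1 * x) *ᵥ b) = B J a b := by
        intro a b
        rw [← mulVec_mulVec, ← mulVec_mulVec, g1.iso, hx]
      have hy1v : (τ1 * x) *ᵥ v = v := by rw [← mulVec_mulVec, e1]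
      have hy1p : ∀ a ∈ U, (τ1 * x) *ᵥ a ∈ U := fun a ha => by
        rw [← mulVec_mulVec]; exact g1.pres _ (hpres a ha)
      have hy1f : ∀ w, (∀ a ∈ U, B J a w = 0) → (τ1 * x) *ᵥ w = w := fun w hw => by
        rw [← mulVec_mulVec, hfix w hw, g1.fix w hw]
      have hw' : B J v ((τ1 * x) *ᵥ v') = 1 := by
        have := hy1 v v'
        rw [hy1v, hvv] at this
        exact this
      have step2 : ∃ τ, Good J U v τ ∧ τ *ᵥ ((τ1 * x) *ᵥ v') = v' := by
        set w' := (τ1 * x) *ᵥ v' with hw'def
        have hw'U : w' ∈ U := hy1p v' hv'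
        by_cases h : B J w' v' = 0
        · have hA : B J w' (v' + v) ≠ 0 := by
            rw [B_add_right, h, zero_add, B_swap hJ v w', hw']
            exact neg_ne_zero.2 one_ne_zero
          have hB : B J v (w' - (v' + v)) = 0 := by
            rw [B_sub_right, B_add_right, hw', hvv, B_self hJ]; ring
          obtain ⟨τ2, g2, e2⟩ := good_move hJ (v := v) hw'U (U.add_mem hv' hv) hB hA
          have hA' : B J (v' + v) v' ≠ 0 := by
            rw [B_add_left, B_self hJ, hvv, zero_add]; exact one_ne_zero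
          have hB' : B J v ((v' + v) - v') = 0 := by
            rw [add_sub_cancel_left, B_self hJ]
          obtain ⟨τ3, g3, e3⟩ := good_move hJ (v := v) (U.add_mem hv' hv) hv' hB' hA'
          exact ⟨τ3 * τ2, g3.mul g2, by rw [← mulVec_mulVec, e2, e3]⟩
        · have hB : B J v (w' - v') = 0 := by rw [B_sub_right, hw', hvv, sub_self]
          exact good_move hJ (v := v) hw'U hv' hB h
      obtain ⟨τ2, g2, e2⟩ := step2
      set y := τ2 * (τ1 * x) with hy
      have hyv : y *ᵥ v = v := by rw [hy, ← mulVec_mulVec, hy1v, g2.fixv]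
      have hyv' : y *ᵥ v' = v' := by rw [hy, ← mulVec_mulVec, e2]
      have hyi : ∀ a b, B J (y *ᵥ a) (y *ᵥ b) = B J a b := by
        intro a b
        rw [hy, ← mulVec_mulVec, ← mulVec_mulVec _ τ2, g2.iso, hy1]
      have hyp : ∀ a ∈ U, y *ᵥ a ∈ U := fun a ha => by
        rw [hy, ← mulVec_mulVec]; exact g2.pres _ (hy1p a ha)
      have hyf : ∀ w, (∀ a ∈ U, B J a w = 0) → y *ᵥ w = w := fun w hw => by
        rw [hy, ← mulVec_mulVec, hy1f w hw, g2.fix w hw]
      -- the smaller subspace
      let U' : Submodule k (n → k) :=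
        { carrier := {a | a ∈ U ∧ B J v a = 0 ∧ B J v' a = 0}
          add_mem' := by
            rintro a b ⟨h1, h2, h3⟩ ⟨h4, h5, h6⟩
            exact ⟨U.add_mem h1 h4, by rw [B_add_right, h2, h5, add_zero],
              by rw [B_add_right, h3, h6, add_zero]⟩
          zero_mem' := ⟨U.zero_mem, B_zero_right _ _, B_zero_right _ _⟩
          smul_mem' := by
            rintro c a ⟨h1, h2, h3⟩
            exact ⟨U.smul_mem _ h1, by rw [B_smul_right, h2, mul_zero],
              by rw [B_smul_right, h3, mul_zero]⟩ }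
      have hmem : ∀ a, a ∈ U' ↔ a ∈ U ∧ B J v a = 0 ∧ B J v' a = 0 := fun a => Iff.rfl
      have hle : U' < U := by
        refine lt_of_le_of_ne (fun a ha => ha.1) ?_
        intro heq
        have hvU' : v' ∈ U' := by rw [heq]; exact hv'
        have := ((hmem v').1 hvU').2.1
        rw [hvv] at this
        exact one_ne_zero this
      have hlt : Module.finrank k U' < m := by
        rw [← hm]
        exact Submodule.finrank_lt_finrank_of_lt hle
      have hdec : ∀ w, (w - (B J w v' • v - B J w v • v')) ∈ U →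
          (w - (B J w v' • v - B J w v • v')) ∈ U' := fun w hw =>
        ⟨hw, (decomp hJ hvv w).1, (decomp hJ hvv w).2⟩
      have hpU : ∀ w, (B J w v' • v - B J w v • v') ∈ U := fun w =>
        U.sub_mem (U.smul_mem _ hv) (U.smul_mem _ hv')
      have hU' : ND J U' := by
        intro a ha hab
        refine hU a ha.1 ?_
        intro b hb
        have h1 := hab _ (hdec b (U.sub_mem hb (hpU b)))
        rw [B_sub_right, B_sub_right, B_smul_right, B_smul_right, B_swap hJ v a, B_swap hJ v' a,
          ha.2.1, ha.2.2] at h1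
        linear_combination h1
      have hyU : y ∈ GT J := by
        refine ih _ hlt U' rfl hU' y hyi ?_ ?_
        · intro a ha
          refine ⟨hyp a ha.1, ?_, ?_⟩
          · have := hyi v a
            rw [hyv, ha.2.1] at this
            exact this
          · have := hyi v' a
            rw [hyv', ha.2.2] at this
            exact this
        · intro w hw
          set p := B J w v' • v - B J w v • v' with hp
          have h1 : y *ᵥ (w - p) = w - p := by
            apply hyf
            intro a ha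
            -- a = a' + p_a
            have h2 := hw _ (hdec a (U.sub_mem ha (hpU a)))
            have h3 := decomp hJ hvv w
            rw [B_sub_left, B_sub_left, B_smul_left, B_smul_left] at h2
            have h4 : B J a p = B J w v' * B J a v - B J w v * B J a v' := by
              rw [hp, B_sub_right, B_smul_right, B_smul_right]
            rw [B_sub_right, h4]
            have h5 : B J v w = -B J w v := B_swap hJ w v
            have h6 : B J v' w = -B J w v' := B_swap hJ w v'
            rw [h5, h6] at h2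
            linear_combination h2
          have h2 : y *ᵥ p = p := by
            rw [hp, mulVec_sub, mulVec_smul, mulVec_smul, hyv, hyv']
          have h3 : w = (w - p) + p := by abel
          rw [h3, mulVec_add, h1, h2]
      obtain ⟨τ1', m1, i1⟩ := g1.inv
      obtain ⟨τ2', m2, i2⟩ := g2.inv
      have hxe : x = τ1' * (τ2' * y) := by
        rw [hy, ← Matrix.mul_assoc τ2', i2, Matrix.one_mul, ← Matrix.mul_assoc, i1, Matrix.one_mul]
      rw [hxe]
      exact Submonoid.mul_mem _ m1 (Submonoid.mul_mem _ m2 hyU)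

end GenA

open GenA

theorem st_GENA (k : Type u) [Field k] [IsAlgClosed k] [CharZero k] : ST_GENA k := by
  intro n _ _ J hJ x hx
  have hJs : Jᵀ = -J := by
    have := hJ.symm
    rw [this, neg_smul, one_smul]
  refine main hJs _ ⊤ rfl ?_ x ?_ (fun _ _ => Submodule.mem_top) ?_
  · intro a _ ha
    by_contra ha0
    obtain ⟨b, hb⟩ : ∃ b, a ⬝ᵥ (J *ᵥ b) ≠ 0 := by
      by_contra hcon
      push Not at hcon
      have h1 : a ᵥ* J = 0 := by
        funext j
        have := hcon (Pi.single j 1)
        rw [dotProduct_mulVec, dotProduct_single_one] at this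
        exact this
      exact ha0 (Matrix.eq_zero_of_vecMul_eq_zero hJ.det_ne h1)
    exact hb (ha b Submodule.mem_top)
  · intro a b
    unfold B
    have : (x *ᵥ a) ⬝ᵥ (J *ᵥ (x *ᵥ b)) = a ⬝ᵥ ((xᵀ * J * x) *ᵥ b) := by
      rw [← mulVec_mulVec, ← mulVec_mulVec, dotProduct_mulVec a, vecMul_transpose]
    rw [this, hx]
  · intro w hw
    have : w = 0 := by
      by_contra hw0
      have h1 : J *ᵥ w = 0 := by
        funext i
        have := hw (Pi.single i 1) Submodule.mem_top
        unfold B at this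
        rw [single_one_dotProduct] at this
        exact this
      exact hw0 (Matrix.eq_zero_of_mulVec_eq_zero hJ.det_ne h1)
    rw [this, mulVec_zero]

end Pool.Agent.Helper97.CG
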